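import Pool.Agent.H94.LH.Stmts2
import Pool.Agent.H49.LH.LDY

/-!
# LH, row LDY2: one dyadic range of the height, given number of prime factors (second form)
-/

set_option autoImplicit false

namespace Pool.LH

open Finset Pool.Agent.H98.ABCR Pool.SHA

open LdyAux

namespace Ldy2Aux

theorem coord_0 (v : ℕ × ℕ) : coord v 0 = v.1 := rfl
theorem coord_1 (v : ℕ × ℕ) : coord v 1 = v.2 := rfl
theorem coord_2 (v : ℕ × ℕ) : coord v 2 = v.1 + v.2 := rfl

theorem fact_nn {v : ℕ × ℕ} (hv : IsTri v) (q : ℕ) :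
    (nn v).factorization q = ∑ i : Fin 3, (coord v i).factorization q := by
  obtain ⟨h1, h2, -⟩ := hv
  have h3 : v.1 * v.2 ≠ 0 := (Nat.mul_pos h1 h2).ne'
  have h4 : v.1 + v.2 ≠ 0 := (Nat.add_pos_left h1 _).ne'
  unfold nn
  rw [Nat.factorization_mul h3 h4, Nat.factorization_mul h1.ne' h2.ne', Fin.sum_univ_three,
    coord_0, coord_1, coord_2]
  rfl

/-- the weight only sees the primes of `n` -/
theorem kl_filter (S : Finset ℕ) (n : ℕ) (p : ℕ → Prop) [DecidablePred p]
    (hS : ∀ q ∈ S, p q) (hS' : ∀ q ∈ n.primeFactors, p q → q ∈ S) :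
    kl S n = kl (n.primeFactors.filter p) n := by
  unfold kl
  symm
  refine Finset.sum_subset ?_ ?_
  · intro q hq
    obtain ⟨h1, h2⟩ := Finset.mem_filter.mp hq
    exact hS' q h1 h2
  · intro q hq hq'
    have h1 : n.factorization q = 0 := by
      by_contra h2
      refine hq' (Finset.mem_filter.mpr ⟨?_, hS q hq⟩)
      rw [← Nat.support_factorization, Finsupp.mem_support_iff]
      exact h2
    rw [h1, Nat.cast_zero, zero_mul]

theorem kl_nn {v : ℕ × ℕ} (hv : IsTri v) (Y : ℝ) :
    kl ((nn v).primeFactors.filter (fun q => (q : ℝ) ≤ Y)) (nn v) =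
      ∑ i : Fin 3, kl ((coord v i).primeFactors.filter (fun q => (q : ℝ) ≤ Y)) (coord v i) := by
  have h1 : ∀ i : Fin 3, kl ((coord v i).primeFactors.filter (fun q => (q : ℝ) ≤ Y)) (coord v i) =
      kl ((nn v).primeFactors.filter (fun q => (q : ℝ) ≤ Y)) (coord v i) := by
    intro i
    symm
    refine kl_filter _ _ _ (fun q hq => (Finset.mem_filter.mp hq).2) ?_
    intro q hq hq'
    exact Finset.mem_filter.mpr
      ⟨Nat.primeFactors_mono (coord_dvd v i) (nn_pos hv).ne' hq, hq'⟩
  simp only [h1]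
  unfold kl
  rw [Finset.sum_comm]
  refine Finset.sum_congr rfl fun q _ => ?_
  rw [fact_nn hv, ← Finset.sum_mul]
  push_cast
  rfl

/-- `Unb` for one coordinate -/
def UnbI (ε Y : ℝ) (i : Fin 3) (v : ℕ × ℕ) : Prop :=
  Real.log (coord v i) ≤ (1 - ε) * hh v ∨
    ε / 3 * hh v ≤ kl ((coord v i).primeFactors.filter (fun q => (q : ℝ) ≤ Y)) (coord v i)

theorem exists_unbI {ε Y : ℝ} {v : ℕ × ℕ} (hv : IsTri v) (h : Unb ε Y v) :
    ∃ i, UnbI ε Y i v := by
  rcases h with h | h
  · rcases le_total v.1 v.2 with h1 | h1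
    · rw [min_eq_left h1] at h
      exact ⟨0, Or.inl h⟩
    · rw [min_eq_right h1] at h
      exact ⟨1, Or.inl h⟩
  · rw [kl_nn hv, Fin.sum_univ_three] at h
    by_contra hcon
    push Not at hcon
    have h0 := fun i => not_le.mp (not_or.mp (hcon i)).2
    have h1 := h0 0
    have h2 := h0 1
    have h3 := h0 2
    linarith

end Ldy2Aux

open Ldy2Aux

theorem ldy2_thm (hP : S_CLP) (hR : S_CLR2) (hG : S_GRY) (hC : Pool.ALLH.S_CEL)
    (hO : Pool.FEX.S_OMB) (hT : S_TOT) : S_LDY2 := by
  classical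
  intro ε hε hε1
  set θ : ℝ := min (ε / 4) 1 with hθdef
  have hθ0 : 0 < θ := lt_min (by linarith) one_pos
  have hθ1 : θ ≤ 1 := min_le_right _ _
  have hθε : θ ≤ ε / 4 := min_le_left _ _
  have hδ0 : 0 < θ * (ε / 3) := by positivity
  have hδ1 : θ * (ε / 3) ≤ 1 := by nlinarith
  obtain ⟨C1, X1, hC1, hX1, hP⟩ := hP (θ * (ε / 3) / 2) (ε / 4) (by linarith) (by linarith)
    (by linarith)
  obtain ⟨C2, X2, hC2, hX2, hR⟩ := hR ε (ε / 4) hε hε1 (by linarith)
  obtain ⟨C3, hC3, hC⟩ := hC (θ * (ε / 3)) hδ0 hδ1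
  obtain ⟨C4, hC4, hO⟩ := hO C3 (ε / 4) hC3 (by linarith)
  obtain ⟨C5, hC5, hT⟩ := hT
  set X0 : ℝ := max X1 X2 with hX0def
  have hX01 : X1 ≤ X0 := le_max_left _ _
  have hX02 : X2 ≤ X0 := le_max_right _ _
  set C6 : ℝ := ((⌊X0⌋₊ + 1 : ℕ) : ℝ) * C5 ^ (⌊X0⌋₊ + 1) with hC6def
  have hC60 : 0 ≤ C6 := by positivity
  set C : ℝ := C1 + C2 + C6 + 3 * (1 + C4) with hCdef
  have hCC1 : C1 ≤ C := by linarith
  have hCC2 : C2 ≤ C := by linarith
  have hCC6 : C6 ≤ C := by linarith
  have hCC4 : 3 * (1 + C4) ≤ C := by linarith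
  refine ⟨C, by linarith, ?_⟩
  intro X Y h0 k F hX hY hh0 hF
  have hX0' : 0 < X := by linarith
  have hXε : 1 ≤ X ^ ε := Real.one_le_rpow hX hε.le
  have hXε4 : 1 ≤ X ^ (ε / 4) := Real.one_le_rpow hX (by linarith)
  have hXθ : X ^ θ ≤ X ^ (ε / 4) := Real.rpow_le_rpow_of_exponent_le hX hθε
  have hlX : 0 ≤ Real.log X := Real.log_nonneg hX
  have hl2 : 0 < Real.log (2 * X) := Real.log_pos (by linarith)
  have hlX2 : Real.log X ≤ Real.log (2 * X) := Real.log_le_log hX0' (by linarith)
  have hh0' : 0 < h0 := lt_of_lt_of_le (by positivity) hh0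
  have hYX : Y ≤ Y * X ^ ε := by nlinarith
  rcases lt_or_ge X X0 with hlt | hge
  · -- small radicals
    have h1 : (F.card : ℝ) ≤ ((range (⌊X0⌋₊ + 1)).card : ℝ) * C5 ^ (⌊X0⌋₊ + 1) := by
      refine card_cover F (range (⌊X0⌋₊ + 1)) (fun R v => RR v = R) (C5 ^ (⌊X0⌋₊ + 1)) ?_ ?_
      · intro v hv
        refine ⟨RR v, ?_, rfl⟩
        rw [Finset.mem_range, Nat.lt_succ_iff]
        exact Nat.le_floor (le_trans (hF v hv).2.1 hlt.le)
      · intro R hR' G hGF hG'
        refine le_trans (hT R G fun v hv => ⟨(hF v (hGF hv)).1, hG' v hv⟩) ?_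
        refine pow_le_pow_right₀ hC5 ?_
        have := om_le R
        rw [Finset.mem_range] at hR'
        omega
    rw [Finset.card_range] at h1
    calc (F.card : ℝ) ≤ C6 := h1
      _ ≤ C := hCC6
      _ = C * 1 := (mul_one C).symm
      _ ≤ C * (Y * X ^ ε) := mul_le_mul_of_nonneg_left (by linarith) (by linarith)
      _ = C * Y * X ^ ε := by ring
  · -- large radicals
    have hXX1 : X1 ≤ X := le_trans hX01 hge
    have hXX2 : X2 ≤ X := le_trans hX02 hge
    have hh1 : C1 ^ (k + 1) * Real.log X ≤ h0 := by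
      refine le_trans ?_ hh0
      exact mul_le_mul (pow_le_pow_left₀ (by linarith) hCC1 _) hlX2 hlX (by positivity)
    have hh2 : C2 ^ (k + 1) * Real.log X ≤ h0 := by
      refine le_trans ?_ hh0
      exact mul_le_mul (pow_le_pow_left₀ (by linarith) hCC2 _) hlX2 hlX (by positivity)
    -- the count for one coordinate
    have key : ∀ i : Fin 3, ∀ G : Finset (ℕ × ℕ), G ⊆ F →
        (∀ v ∈ G, UnbI ε Y i v) → (G.card : ℝ) ≤ (1 + C4) * (Y * X ^ ε) := by
      intro i G hGF hGY
      have hsplit : (G.card : ℝ) =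
          ((G.filter fun v => Real.log (coord v i) ≤ (1 - ε) * hh v).card : ℝ) +
            ((G.filter fun v => ¬ Real.log (coord v i) ≤ (1 - ε) * hh v).card : ℝ) := by
        rw [← Nat.cast_add, Finset.card_filter_add_card_filter_not]
      have hA : ((G.filter fun v => Real.log (coord v i) ≤ (1 - ε) * hh v).card : ℝ) ≤ X ^ (ε / 4) := by
        refine hR X h0 k i _ hXX2 hh2 ?_
        intro v hv
        obtain ⟨hv1, hv2⟩ := Finset.mem_filter.mp hv
        obtain ⟨p1, p2, p3, p4, p5, p6⟩ := hF v (hGF hv1)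
        exact ⟨p1, p2, p5, p6, p4, hv2⟩
      have hB : ((G.filter fun v => ¬ Real.log (coord v i) ≤ (1 - ε) * hh v).card : ℝ) ≤
          C4 * (Y * X ^ ε) := by
        set G1 := G.filter fun v => ¬ Real.log (coord v i) ≤ (1 - ε) * hh v with hG1
        have hG1F : ∀ v ∈ G1, v ∈ F ∧ ε / 3 * hh v ≤
            kl ((coord v i).primeFactors.filter (fun q => (q : ℝ) ≤ Y)) (coord v i) := by
          intro v hv
          obtain ⟨hv1, hv2⟩ := Finset.mem_filter.mp hv
          exact ⟨hGF hv1, (hGY v hv1).resolve_left hv2⟩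
        -- cover by the known sets
        have hcov := card_cover G1 (Icc 1 ⌊X ^ θ * Y⌋₊)
          (fun N v => N.primeFactors ⊆ (coord v i).primeFactors ∧
            θ * (ε / 3) * h0 ≤ kl N.primeFactors (coord v i))
          (C4 * X ^ (ε / 4) * X ^ (ε / 4)) ?_ ?_
        · refine le_trans hcov ?_
          rw [Nat.card_Icc, Nat.add_sub_cancel]
          have h1 : ((⌊X ^ θ * Y⌋₊ : ℕ) : ℝ) ≤ X ^ θ * Y := Nat.floor_le (by positivity)
          have h2 : X ^ (ε / 4) * X ^ (ε / 4) * X ^ (ε / 4) ≤ X ^ ε := by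
            rw [← Real.rpow_add hX0', ← Real.rpow_add hX0']
            exact Real.rpow_le_rpow_of_exponent_le hX (by linarith)
          calc ((⌊X ^ θ * Y⌋₊ : ℕ) : ℝ) * (C4 * X ^ (ε / 4) * X ^ (ε / 4))
              ≤ (X ^ θ * Y) * (C4 * X ^ (ε / 4) * X ^ (ε / 4)) :=
                mul_le_mul_of_nonneg_right h1 (by positivity)
            _ ≤ (X ^ (ε / 4) * Y) * (C4 * X ^ (ε / 4) * X ^ (ε / 4)) := by
                refine mul_le_mul_of_nonneg_right ?_ (by positivity)
                exact mul_le_mul_of_nonneg_right hXθ (by linarith)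
            _ = C4 * (Y * (X ^ (ε / 4) * X ^ (ε / 4) * X ^ (ε / 4))) := by ring
            _ ≤ C4 * (Y * X ^ ε) := by
                refine mul_le_mul_of_nonneg_left ?_ (by linarith)
                exact mul_le_mul_of_nonneg_left h2 (by linarith)
        · -- choice of the known set
          intro v hv
          obtain ⟨hvF, hvl⟩ := hG1F v hv
          obtain ⟨p1, p2, p3, p4, p5, p6⟩ := hF v hvF
          obtain ⟨T, hTs, -, hT1, hT2⟩ := hG (coord v i) θ Y (coord_pos p1 i) hθ0.le hθ1 hY
          have hTp : ∀ p ∈ T, p.Prime := fun p hp => Nat.prime_of_mem_primeFactors (hTs hp)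
          have hTN : (∏ q ∈ T, q).primeFactors = T := Nat.primeFactors_prod hTp
          refine ⟨∏ q ∈ T, q, ?_, ?_, ?_⟩
          · rw [Finset.mem_Icc]
            refine ⟨Finset.prod_pos fun p hp => (hTp p hp).pos, Nat.le_floor ?_⟩
            refine le_trans hT2 ?_
            have hr1 : ((rad (coord v i) : ℕ) : ℝ) ≤ X :=
              le_trans (by exact_mod_cast rad_coord_le p1 i) p2
            exact mul_le_mul_of_nonneg_right (Real.rpow_le_rpow (Nat.cast_nonneg _) hr1 hθ0.le)
              (by linarith)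
          · rw [hTN]
            exact hTs
          · rw [hTN]
            refine le_trans ?_ hT1
            have h1 : θ * (ε / 3) * h0 ≤ θ * (ε / 3) * hh v := mul_le_mul_of_nonneg_left p5 hδ0.le
            have h2 := mul_le_mul_of_nonneg_left hvl hθ0.le
            linarith
        · -- the count for a known set
          intro N hN G2 hG21 hG2
          rcases G2.eq_empty_or_nonempty with he | ⟨v0, hv0⟩
          · rw [he]
            simp only [Finset.card_empty, Nat.cast_zero]
            positivity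
          obtain ⟨hv0F, -⟩ := hG1F v0 (hG21 hv0)
          obtain ⟨q1, q2, q3, q4, q5, q6⟩ := hF v0 hv0F
          have hNp : ∀ q ∈ N.primeFactors, q.Prime := fun q hq => Nat.prime_of_mem_primeFactors hq
          obtain ⟨Xs, hXs, hcell⟩ := hC N.primeFactors h0 hNp hh0'
          have hXs' : (Xs.card : ℝ) ≤ C4 * X ^ (ε / 4) := by
            refine le_trans hXs ?_
            have h1 : N.primeFactors.card ≤ om (RR v0) := by
              rw [om_RR]
              exact Finset.card_le_card (le_trans (hG2 v0 hv0).1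
                (Nat.primeFactors_mono (coord_dvd v0 i) (nn_pos q1).ne'))
            have h2 : C3 ^ (N.primeFactors.card + 1) ≤ C3 ^ (om (RR v0) + 1) :=
              pow_le_pow_right₀ hC3 (by omega)
            have h3 : C3 ^ (om (RR v0) + 1) ≤ C4 * ((RR v0 : ℕ) : ℝ) ^ (ε / 4) :=
              hO (RR v0) (rad_pos _)
            have h4 : ((RR v0 : ℕ) : ℝ) ^ (ε / 4) ≤ X ^ (ε / 4) :=
              Real.rpow_le_rpow (Nat.cast_nonneg _) q2 (by linarith)
            have h5 : C4 * ((RR v0 : ℕ) : ℝ) ^ (ε / 4) ≤ C4 * X ^ (ε / 4) :=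
              mul_le_mul_of_nonneg_left h4 (by linarith)
            linarith
          have hcov2 := card_cover G2 Xs
            (fun x v => (∀ t ∈ N.primeFactors, x t ≤ (coord v i).factorization t) ∧
              θ * (ε / 3) / 2 * h0 ≤ ∑ t ∈ N.primeFactors, (x t : ℝ) * Real.log t)
            (X ^ (ε / 4)) ?_ ?_
          · refine le_trans hcov2 ?_
            exact mul_le_mul_of_nonneg_right hXs' (by positivity)
          · intro v hv
            obtain ⟨hvF, -⟩ := hG1F v (hG21 hv)
            obtain ⟨p1, p2, p3, p4, p5, p6⟩ := hF v hvF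
            obtain ⟨g1, g2⟩ := hG2 v hv
            have hle : kl N.primeFactors (coord v i) ≤ 2 * h0 := by
              refine le_trans (kl_le (coord_pos p1 i) _ g1) (le_trans ?_ p6)
              unfold hh
              exact Real.log_le_log (by exact_mod_cast coord_pos p1 i)
                (by exact_mod_cast coord_le v i)
            obtain ⟨x, hx, hx1, hx2⟩ := hcell (fun t => (coord v i).factorization t) g2 hle
            exact ⟨x, hx, hx1, hx2⟩
          · intro x _ G3 hG32 hG3
            rcases G3.eq_empty_or_nonempty with he | ⟨v1, hv1⟩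
            · rw [he]
              simp only [Finset.card_empty, Nat.cast_zero]
              positivity
            refine hP X h0 k (N.primeFactors.filter fun q => 1 ≤ x q) x i G3 hXX1 hh1 ?_ ?_ ?_ ?_
            · intro q hq
              exact hNp q (Finset.mem_filter.mp hq).1
            · intro q hq
              exact (Finset.mem_filter.mp hq).2
            · have h1 := (hG3 v1 hv1).2
              have h2 : ∑ q ∈ N.primeFactors.filter (fun q => 1 ≤ x q), (x q : ℝ) * Real.log q =
                  ∑ t ∈ N.primeFactors, (x t : ℝ) * Real.log t := by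
                refine Finset.sum_subset (Finset.filter_subset _ _) ?_
                intro q hq hq'
                have h3 : x q = 0 := by
                  by_contra h4
                  exact hq' (Finset.mem_filter.mpr ⟨hq, Nat.one_le_iff_ne_zero.mpr h4⟩)
                rw [h3, Nat.cast_zero, zero_mul]
              rw [h2]
              linarith
            · intro v hv
              obtain ⟨hvF, -⟩ := hG1F v (hG21 (hG32 hv))
              obtain ⟨p1, p2, p3, p4, p5, p6⟩ := hF v hvF
              refine ⟨p1, p2, p5, p6, p4, ?_⟩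
              intro q hq
              obtain ⟨hq1, hq2⟩ := Finset.mem_filter.mp hq
              exact ((Nat.Prime.pow_dvd_iff_le_factorization (hNp q hq1)
                (coord_pos p1 i).ne').mpr ((hG3 v hv).1 q hq1))
      rw [hsplit]
      have h1 : X ^ (ε / 4) ≤ Y * X ^ ε := by
        have h2 : X ^ (ε / 4) ≤ X ^ ε := Real.rpow_le_rpow_of_exponent_le hX (by linarith)
        nlinarith
      linarith
    have hcov3 := card_cover F (univ : Finset (Fin 3)) (fun i v => UnbI ε Y i v)
      ((1 + C4) * (Y * X ^ ε)) (fun v hv => by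
        obtain ⟨i, hi⟩ := exists_unbI (hF v hv).1 (hF v hv).2.2.1
        exact ⟨i, Finset.mem_univ _, hi⟩) (fun i _ G hGF hGY => key i G hGF hGY)
    refine le_trans hcov3 ?_
    rw [Finset.card_univ, Fintype.card_fin]
    calc ((3 : ℕ) : ℝ) * ((1 + C4) * (Y * X ^ ε)) = 3 * (1 + C4) * (Y * X ^ ε) := by
          push_cast
          ring
      _ ≤ C * (Y * X ^ ε) := mul_le_mul_of_nonneg_right hCC4 (by positivity)
      _ = C * Y * X ^ ε := by ring

end Pool.LH
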